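import Pool.Agent.W661.Nrm14
import Pool.Agent.Helper902.NASimons

/-! Convergence at the pure states (after Rainwater, by the inequality of Simons). -/

set_option autoImplicit false
set_option linter.unusedSectionVars false

open scoped CStarAlgebra ComplexOrder ComplexStarModule InnerProductSpace
open Filter Topology

namespace Pool.Agent.TH261.NP

open Pool.Agent.W661.Nrm

variable {A : Type*} [CStarAlgebra A] [PartialOrder A] [StarOrderedRing A]

/-- the real part of `b` has its maximum over the states at a pure state -/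
theorem exists_pure_max (b : A) (φ0 : A →ₚ[ℂ] ℂ) (h01 : φ0 1 = 1) :
    ∃ φ : A →ₚ[ℂ] ℂ, Pure φ ∧ ∀ f ∈ St A, (f b).re ≤ (φ b).re := by
  set c : (A → ℂ) → ℝ := fun f => (f b).re with hc
  have hcc : Continuous c := by
    unfold c
    fun_prop
  obtain ⟨f0, hf0, hmax⟩ := St_compact.exists_isMaxOn ⟨(φ0 : A → ℂ), φ0, h01, rfl⟩ hcc.continuousOn
  set F : Set (A → ℂ) := {f ∈ St A | c f = c f0} with hF
  have hFc : IsCompact F := St_compact.inter_right (isClosed_eq hcc continuous_const)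
  obtain ⟨f, hf⟩ := hFc.extremePoints_nonempty ⟨f0, hf0, rfl⟩
  rw [mem_extremePoints_iff_left] at hf
  obtain ⟨⟨⟨φ, hφ1, rfl⟩, hφc⟩, hext⟩ := hf
  refine ⟨φ, ⟨hφ1, ?_⟩, ?_⟩
  · intro χ hχ
    have hχ1 := hχ 1 zero_le_one
    have hχ0 : 0 ≤ χ 1 := χ.map_nonneg zero_le_one
    rw [hφ1] at hχ1
    set t : ℝ := (χ 1).re with ht
    have htc : χ 1 = (t : ℂ) := by
      apply Complex.ext
      · simp [ht]
      · simpa using (Complex.le_def.1 hχ0).2.symm
    have ht0 : 0 ≤ t := by simpa using (Complex.le_def.1 hχ0).1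
    have ht1 : t ≤ 1 := by simpa using (Complex.le_def.1 hχ1).1
    -- the difference
    let χ' : A →ₚ[ℂ] ℂ := PositiveLinearMap.mk₀ ((φ : A →ₗ[ℂ] ℂ) - (χ : A →ₗ[ℂ] ℂ)) (by
      intro x hx
      have := hχ x hx
      exact sub_nonneg.2 this)
    have hχ'a : ∀ a, χ' a = φ a - χ a := fun a => rfl
    rcases ht0.eq_or_lt with h0 | h0
    · refine ⟨0, fun a => ?_⟩
      rw [zero_mul]
      exact zero_of_one χ (by rw [htc, ← h0]; simp) a
    rcases ht1.eq_or_lt with h1 | h1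
    · refine ⟨1, fun a => ?_⟩
      have := zero_of_one χ' (by rw [hχ'a, hφ1, htc, h1]; simp) a
      rw [hχ'a, sub_eq_zero] at this
      rw [one_mul, this]
    have ht' : 0 < 1 - t := by linarith
    have hpos : ∀ (η : A →ₚ[ℂ] ℂ) (r : ℝ), 0 ≤ r → ∀ x : A, 0 ≤ x →
        0 ≤ ((r : ℂ) • (η : A →ₗ[ℂ] ℂ)) x := by
      intro η r hr x hx
      have h1 : 0 ≤ η x := η.map_nonneg hx
      have h2 : (0 : ℂ) ≤ (r : ℂ) := by exact_mod_cast hr
      exact mul_nonneg h2 h1
    let η1 : A →ₚ[ℂ] ℂ := PositiveLinearMap.mk₀ (((t⁻¹ : ℝ) : ℂ) • (χ : A →ₗ[ℂ] ℂ))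
      (hpos χ _ (by positivity))
    let η2 : A →ₚ[ℂ] ℂ := PositiveLinearMap.mk₀ ((((1 - t)⁻¹ : ℝ) : ℂ) • (χ' : A →ₗ[ℂ] ℂ))
      (hpos χ' _ (by positivity))
    have hη1 : ∀ a, η1 a = ((t⁻¹ : ℝ) : ℂ) * χ a := fun a => rfl
    have hη2 : ∀ a, η2 a = (((1 - t)⁻¹ : ℝ) : ℂ) * χ' a := fun a => rfl
    have htne : (t : ℂ) ≠ 0 := by exact_mod_cast h0.ne'
    have htne' : (1 - t : ℂ) ≠ 0 := by exact_mod_cast ht'.ne'
    have m1 : (η1 : A → ℂ) ∈ St A := ⟨η1, by rw [hη1, htc]; push_cast; field_simp, rfl⟩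
    have m2 : (η2 : A → ℂ) ∈ St A := ⟨η2, by
      rw [hη2, hχ'a, hφ1, htc]; push_cast; field_simp, rfl⟩
    have hcomb : (φ : A → ℂ) = t • (η1 : A → ℂ) + (1 - t) • (η2 : A → ℂ) := by
      funext a
      rw [Pi.add_apply, Pi.smul_apply, Pi.smul_apply, hη1, hη2, hχ'a, Complex.real_smul,
        Complex.real_smul]
      push_cast
      field_simp
      ring
    have hc1 : c η1 ≤ c f0 := hmax m1
    have hc2 : c η2 ≤ c f0 := hmax m2
    have hcφ : c φ = t * c η1 + (1 - t) * c η2 := by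
      rw [hcomb]
      simp [hc]
    have hc1' : c η1 = c f0 := by
      by_contra hne
      have : c η1 < c f0 := lt_of_le_of_ne hc1 hne
      nlinarith
    have hc2' : c η2 = c f0 := by
      by_contra hne
      have : c η2 < c f0 := lt_of_le_of_ne hc2 hne
      nlinarith
    have := hext η1 ⟨m1, hc1'⟩ η2 ⟨m2, hc2'⟩ ⟨t, 1 - t, h0, ht', by ring, hcomb.symm⟩
    refine ⟨t, fun a => ?_⟩
    have h3 := congrFun this a
    rw [hη1] at h3
    rw [← h3]
    push_cast
    field_simp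
  · intro f hf
    have h1 : c f ≤ c f0 := hmax hf
    rw [← hφc] at h1
    exact h1

/-- evaluation of the real part at the states -/
noncomputable def evSt (a : A) : C(St A, ℝ) :=
  ⟨fun f => (1 / 4 : ℝ) * (f.1 a).re, continuous_const.mul
    (Complex.continuous_re.comp ((continuous_apply a).comp continuous_subtype_val))⟩

instance : CompactSpace (St A) := isCompact_iff_compactSpace.1 St_compact

theorem evSt_norm (a : A) : ‖evSt a‖ ≤ ‖a‖ := by
  refine (ContinuousMap.norm_le _ (norm_nonneg _)).2 ?_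
  rintro ⟨f, φ, hφ, rfl⟩
  show ‖(1 / 4 : ℝ) * (φ a).re‖ ≤ _
  have h1 := norm_pos_le φ a
  rw [hφ, norm_one, one_mul] at h1
  rw [norm_mul, Real.norm_eq_abs, Real.norm_eq_abs, abs_of_pos (by norm_num : (0 : ℝ) < 1 / 4)]
  have := Complex.abs_re_le_norm (φ a)
  linarith

/-- the map -/
noncomputable def evL : A →L[ℝ] C(St A, ℝ) :=
  LinearMap.mkContinuous
    { toFun := evSt
      map_add' := by
        intro a b
        ext ⟨f, φ, hφ, rfl⟩
        show (1 / 4 : ℝ) * (φ (a + b)).re = (1 / 4 : ℝ) * (φ a).re + (1 / 4 : ℝ) * (φ b).re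
        rw [map_add, Complex.add_re]; ring
      map_smul' := by
        intro r a
        ext ⟨f, φ, hφ, rfl⟩
        show (1 / 4 : ℝ) * (φ (r • a)).re = r * ((1 / 4 : ℝ) * (φ a).re)
        have : r • a = (r : ℂ) • a := (Complex.coe_smul r a).symm
        rw [this, map_smul, smul_eq_mul, Complex.re_ofReal_mul]; ring } 1
    (fun a => by rw [one_mul]; exact evSt_norm a)

theorem evL_apply (a : A) (φ : A →ₚ[ℂ] ℂ) (hφ : φ 1 = 1) :
    evL a ⟨φ, φ, hφ, rfl⟩ = (1 / 4 : ℝ) * (φ a).re := rfl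

theorem re_neg_apply (φ : A →ₚ[ℂ] ℂ) (a : A) : (φ (-a)).re = - (φ a).re := by
  rw [map_neg, Complex.neg_re]

/-- the norm of `evL a` is attained at a pure state, up to the sign -/
theorem evL_attained (a : A) (φ0 : A →ₚ[ℂ] ℂ) (h01 : φ0 1 = 1) :
    ∃ (φ : A →ₚ[ℂ] ℂ) (hφ : Pure φ) (s : ℝ), |s| = 1 ∧
      s * evL a ⟨φ, φ, hφ.one, rfl⟩ = ‖evL a‖ := by
  obtain ⟨φ1, hp1, hm1⟩ := exists_pure_max a φ0 h01
  obtain ⟨φ2, hp2, hm2⟩ := exists_pure_max (-a) φ0 h01
  have hm2' : ∀ φ : A →ₚ[ℂ] ℂ, φ 1 = 1 → (φ2 a).re ≤ (φ a).re := by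
    intro φ hφ
    have := hm2 φ ⟨φ, hφ, rfl⟩
    rw [re_neg_apply, re_neg_apply] at this
    linarith
  rcases le_total ((φ1 a).re) (-(φ2 a).re) with h | h
  · refine ⟨φ2, hp2, -1, by norm_num, le_antisymm ?_ ?_⟩
    · refine le_trans (le_abs_self _) ?_
      rw [abs_mul, abs_neg, abs_one, one_mul]
      exact (evL a).norm_coe_le_norm _
    · refine (ContinuousMap.norm_le _ ?_).2 ?_
      · rw [evL_apply a φ2 hp2.one]
        have h1 := hm2' φ1 hp1.one
        linarith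
      · rintro ⟨f, φ, hφ, rfl⟩
        rw [evL_apply a φ hφ, evL_apply a φ2 hp2.one, Real.norm_eq_abs, abs_le]
        have h1 := hm2' φ hφ
        have h2 := hm1 φ ⟨φ, hφ, rfl⟩
        constructor <;> linarith
  · refine ⟨φ1, hp1, 1, by norm_num, le_antisymm ?_ ?_⟩
    · refine le_trans (le_abs_self _) ?_
      rw [one_mul]
      exact (evL a).norm_coe_le_norm _
    · refine (ContinuousMap.norm_le _ ?_).2 ?_
      · rw [evL_apply a φ1 hp1.one]
        have h1 := hm2' φ1 hp1.one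
        linarith
      · rintro ⟨f, φ, hφ, rfl⟩
        rw [evL_apply a φ hφ, evL_apply a φ1 hp1.one, Real.norm_eq_abs, abs_le]
        have h1 := hm2' φ hφ
        have h2 := hm1 φ ⟨φ, hφ, rfl⟩
        constructor <;> linarith

/-- no lower bound along a sequence -/
theorem no_lower {x : ℕ → A} {C : ℝ} (hC : 0 < C) (hx : ∀ n, ‖x n‖ ≤ C)
    (h : ∀ φ : A →ₚ[ℂ] ℂ, Pure φ → Tendsto (fun n => (φ (x n)).re) atTop (𝓝 0))
    (ρ : A →ₚ[ℂ] ℂ) (hρ : ρ 1 = 1) {ε : ℝ} (hε : 0 < ε) (hl : ∀ n, ε ≤ (ρ (x n)).re) : False := by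
  set β : ℝ := (1 / 4) * (C⁻¹ * ε) with hβ
  have hβ0 : 0 < β := by positivity
  obtain ⟨y, ⟨φ, hφ, s, hs, hy⟩, -, hlim⟩ :=
    Pool.Agent.Helper902.NA.simons_abs (X := A) (B := C(St A, ℝ)) evL
      (fun u => evSt_norm u) 0 (fun n => (C⁻¹ : ℝ) • x n) (fun n => by
        rw [norm_smul, norm_inv, Real.norm_of_nonneg hC.le, inv_mul_le_iff₀ hC, mul_one]
        exact hx n)
      (fun y => ∃ (φ : A →ₚ[ℂ] ℂ) (hφ : Pure φ) (s : ℝ), |s| = 1 ∧
        ∀ b : C(St A, ℝ), y b = s * b ⟨φ, φ, hφ.one, rfl⟩)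
      (fun u t => by
        obtain ⟨φ, hφ, s, hs, h1⟩ := evL_attained u ρ hρ
        refine ⟨LinearMap.mkContinuous
          { toFun := fun b : C(St A, ℝ) => s * b ⟨φ, φ, hφ.one, rfl⟩
            map_add' := fun b b' => by simp [mul_add]
            map_smul' := fun r b => by simp; ring } 1 (fun b => ?_), ⟨φ, hφ, s, hs, fun b => rfl⟩,
              LinearMap.mkContinuous_norm_le _ zero_le_one _, ?_⟩
        · show ‖s * b ⟨φ, φ, hφ.one, rfl⟩‖ ≤ 1 * ‖b‖
          rw [norm_mul, Real.norm_eq_abs, hs]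
          exact mul_le_mul_of_nonneg_left (b.norm_coe_le_norm _) zero_le_one
        · have e0 : evL u + t • (0 : C(St A, ℝ)) = evL u := by rw [smul_zero, add_zero]
          exact (congrArg (fun b : C(St A, ℝ) => s * b ⟨φ, φ, hφ.one, rfl⟩) e0).trans
            (h1.trans (congrArg norm e0.symm)))
      β (fun u hu => by
        rw [sub_zero]
        have hev : β ≤ evL u ⟨ρ, ρ, hρ, rfl⟩ := by
          have h1 : convexHull ℝ (Set.range fun n => (C⁻¹ : ℝ) • x n) ⊆
              {u : A | β ≤ evL u ⟨ρ, ρ, hρ, rfl⟩} := by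
            refine convexHull_min ?_ ?_
            · rintro _ ⟨n, rfl⟩
              show β ≤ evL ((C⁻¹ : ℝ) • x n) ⟨ρ, ρ, hρ, rfl⟩
              rw [map_smul, ContinuousMap.smul_apply, evL_apply (x n) ρ hρ, smul_eq_mul, hβ]
              have := mul_le_mul_of_nonneg_left (hl n) (inv_nonneg.2 hC.le)
              linarith
            · intro a ha b hb p q hp hq hpq
              show β ≤ evL (p • a + q • b) ⟨ρ, ρ, hρ, rfl⟩
              rw [map_add, map_smul, map_smul, ContinuousMap.add_apply, ContinuousMap.smul_apply,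
                ContinuousMap.smul_apply, smul_eq_mul, smul_eq_mul]
              have h2 : β ≤ evL a ⟨ρ, ρ, hρ, rfl⟩ := ha
              have h3 : β ≤ evL b ⟨ρ, ρ, hρ, rfl⟩ := hb
              have h4 := mul_le_mul_of_nonneg_left h2 hp
              have h5 := mul_le_mul_of_nonneg_left h3 hq
              have h6 : β = p * β + q * β := by rw [← add_mul, hpq, one_mul]
              linarith
          exact h1 hu
        exact hev.trans ((le_abs_self _).trans ((evL u).norm_coe_le_norm _)))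
      (β / 2) (by positivity)
  have h1 := h φ hφ
  have h2 : Tendsto (fun n => y (evL ((C⁻¹ : ℝ) • x n)) - y 0) atTop (𝓝 0) := by
    have e : ∀ n, y (evL ((C⁻¹ : ℝ) • x n)) - y 0 =
        (s * ((1 / 4) * C⁻¹)) * (φ (x n)).re := by
      intro n
      rw [map_zero, sub_zero, hy, map_smul, ContinuousMap.smul_apply, evL_apply (x n) φ hφ.one,
        smul_eq_mul]
      ring
    simp_rw [e]
    simpa using h1.const_mul (s * ((1 / 4) * C⁻¹))
  obtain ⟨N, hN⟩ := eventually_atTop.1 (h2.eventually (gt_mem_nhds (show 0 < β / 4 by positivity)))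
  obtain ⟨n, hn, h3⟩ := hlim N
  have h4 := hN n hn
  linarith

/-- **Convergence at the pure states implies convergence at all positive functionals.** -/
theorem rain {x : ℕ → A} {C : ℝ} (hx : ∀ n, ‖x n‖ ≤ C)
    (h : ∀ φ : A →ₚ[ℂ] ℂ, Pure φ → Tendsto (fun n => φ (x n)) atTop (𝓝 0))
    (ρ : A →ₚ[ℂ] ℂ) : Tendsto (fun n => ρ (x n)) atTop (𝓝 0) := by
  -- the real part at a state
  have key : ∀ (y : ℕ → A) (D : ℝ), (∀ n, ‖y n‖ ≤ D) →
      (∀ φ : A →ₚ[ℂ] ℂ, Pure φ → Tendsto (fun n => φ (y n)) atTop (𝓝 0)) →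
      ∀ ρ : A →ₚ[ℂ] ℂ, ρ 1 = 1 → Tendsto (fun n => (ρ (y n)).re) atTop (𝓝 0) := by
    intro y D hy h ρ hρ
    have hre : ∀ φ : A →ₚ[ℂ] ℂ, Pure φ → Tendsto (fun n => (φ (y n)).re) atTop (𝓝 0) := by
      intro φ hφ
      have := (Complex.continuous_re.tendsto 0).comp (h φ hφ)
      rwa [Complex.zero_re] at this
    have hD : ∀ n, ‖y n‖ ≤ max D 1 := fun n => (hy n).trans (le_max_left _ _)
    have hD0 : 0 < max D 1 := lt_of_lt_of_le one_pos (le_max_right _ _)
    rw [Metric.tendsto_atTop]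
    by_contra hcon
    push Not at hcon
    obtain ⟨ε, hε, hcon⟩ := hcon
    -- one of the two signs occurs frequently
    have hfreq : (∃ᶠ n in atTop, ε ≤ (ρ (y n)).re) ∨ (∃ᶠ n in atTop, ε ≤ (ρ (-(y n))).re) := by
      rw [← frequently_or_distrib, frequently_atTop]
      intro N
      obtain ⟨n, hn, h1⟩ := hcon N
      refine ⟨n, hn, ?_⟩
      rw [Real.dist_eq, sub_zero] at h1
      rw [re_neg_apply]
      rcases le_abs.1 h1 with h2 | h2
      · exact Or.inl h2
      · exact Or.inr h2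
    rcases hfreq with hf | hf
    · obtain ⟨k, hk, h1⟩ := extraction_of_frequently_atTop hf
      exact no_lower (x := fun n => y (k n)) hD0 (fun n => hD _)
        (fun φ hφ => (hre φ hφ).comp hk.tendsto_atTop) ρ hρ hε h1
    · obtain ⟨k, hk, h1⟩ := extraction_of_frequently_atTop hf
      refine no_lower (x := fun n => -(y (k n))) hD0 (fun n => by rw [norm_neg]; exact hD _)
        (fun φ hφ => ?_) ρ hρ hε h1
      have h2 := ((hre φ hφ).comp hk.tendsto_atTop).neg
      rw [neg_zero] at h2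
      refine h2.congr fun n => ?_
      rw [re_neg_apply]; rfl
  -- a state
  have key2 : ∀ ρ : A →ₚ[ℂ] ℂ, ρ 1 = 1 → Tendsto (fun n => ρ (x n)) atTop (𝓝 0) := by
    intro ρ hρ
    have h1 := key x C hx h ρ hρ
    have h2 := key (fun n => (-Complex.I) • x n) C (fun n => by
      rw [norm_smul, norm_neg, Complex.norm_I, one_mul]; exact hx n) (fun φ hφ => by
        have := (h φ hφ).const_mul (-Complex.I)
        rw [mul_zero] at this
        refine this.congr fun n => ?_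
        rw [map_smul, smul_eq_mul]) ρ hρ
    have h3 : ∀ n, ρ (x n) = (((ρ (x n)).re : ℝ) : ℂ) +
        (((ρ ((-Complex.I) • x n)).re : ℝ) : ℂ) * Complex.I := by
      intro n
      rw [map_smul, smul_eq_mul]
      apply Complex.ext <;> simp
    have h4 := ((Complex.continuous_ofReal.tendsto 0).comp h1).add
      (((Complex.continuous_ofReal.tendsto 0).comp h2).mul_const Complex.I)
    rw [Complex.ofReal_zero, zero_mul, add_zero] at h4
    refine h4.congr fun n => (h3 n).symm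
  -- a positive functional
  have hρ0 : 0 ≤ ρ 1 := ρ.map_nonneg zero_le_one
  obtain ⟨t, ht⟩ : ∃ t : ℝ, ρ 1 = (t : ℂ) := ⟨(ρ 1).re, by
    apply Complex.ext
    · simp
    · simpa using (Complex.le_def.1 hρ0).2.symm⟩
  have ht0 : 0 ≤ t := by
    rw [ht] at hρ0
    exact_mod_cast hρ0
  rcases ht0.eq_or_lt with h0 | h0
  · have : ∀ n, ρ (x n) = 0 := fun n => zero_of_one ρ (by rw [ht, ← h0]; simp) _
    simp_rw [this]
    exact tendsto_const_nhds
  · let η : A →ₚ[ℂ] ℂ := PositiveLinearMap.mk₀ (((t⁻¹ : ℝ) : ℂ) • (ρ : A →ₗ[ℂ] ℂ)) (by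
      intro x hx
      have h1 : 0 ≤ ρ x := ρ.map_nonneg hx
      have h2 : (0 : ℂ) ≤ ((t⁻¹ : ℝ) : ℂ) := by exact_mod_cast (inv_pos.2 h0).le
      exact mul_nonneg h2 h1)
    have hη : ∀ a, η a = ((t⁻¹ : ℝ) : ℂ) * ρ a := fun a => rfl
    have htne : (t : ℂ) ≠ 0 := by exact_mod_cast h0.ne'
    have h1 := (key2 η (by rw [hη, ht]; push_cast; field_simp)).const_mul (t : ℂ)
    rw [mul_zero] at h1
    refine h1.congr fun n => ?_
    rw [hη]
    push_cast
    field_simp

end Pool.Agent.TH261.NP
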