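import Pool.Agent.TH261.AB.Final
import Pool.Agent.TH261.NP.Rain

/-! The orbits in irreducible representations, and Möbius orthogonality, strongly in all
representations. -/

set_option autoImplicit false
set_option linter.unusedSectionVars false

open Finset Filter Topology

namespace Pool.Agent.TH261.NP

open Pool.Agent.Helper188.NCM Pool.Agent.TH261.AB Pool.Agent.W661.Nrm
open scoped InnerProductSpace ComplexOrder

variable {U : Type} [CStarAlgebra U]

/-- central unitaries -/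
def CU (U : Type) [CStarAlgebra U] : Set U := {z | z ∈ unitary U ∧ ∀ a, z * a = a * z}

/-- central unitaries fixed by `α` -/
def FC (α : U →⋆ₐ[ℂ] U) : Set U := {z | z ∈ CU U ∧ α z = z}

/-- unitaries indexed by a group, multiplicative up to central unitaries fixed by `α` -/
structure TwC {G : Type} [Group G] (α : U →⋆ₐ[ℂ] U) (u : G → U) : Prop where
  unit : ∀ g, u g ∈ unitary U
  mul : ∀ g h, ∃ z ∈ FC α, u (g * h) = z * (u g * u h)

section grp

variable {G : Type} [Group G]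

theorem sg_mul (σ : G →* G) (n : ℕ) (x y : G) : (σ^[n]) (x * y) = (σ^[n]) x * (σ^[n]) y := by
  induction n generalizing x y with
  | zero => simp
  | succ n ih => rw [Function.iterate_succ_apply, Function.iterate_succ_apply,
      Function.iterate_succ_apply, map_mul, ih]

theorem sg_inv (σ : G →* G) (n : ℕ) (x : G) : (σ^[n]) (x⁻¹) = ((σ^[n]) x)⁻¹ := by
  induction n generalizing x with
  | zero => simp
  | succ n ih => rw [Function.iterate_succ_apply, Function.iterate_succ_apply, map_inv, ih]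

theorem sg_one (σ : G →* G) (n : ℕ) : (σ^[n]) (1 : G) = 1 := by
  induction n with
  | zero => simp
  | succ n ih => rw [Function.iterate_succ_apply, map_one, ih]

/-- the difference map of `σ ^ m` -/
def Dg (σ : G →* G) (m : ℕ) (g : G) : G := g⁻¹ * (σ^[m]) g

theorem Dg_comm (σ : G →* G) (m r k : ℕ) (g : G) :
    ((Dg σ m)^[k]) ((σ^[r]) g) = (σ^[r]) (((Dg σ m)^[k]) g) := by
  induction k generalizing g with
  | zero => rfl
  | succ k ih =>
    rw [Function.iterate_succ_apply, Function.iterate_succ_apply, ← ih]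
    congr 1
    rw [Dg, Dg, sg_mul, sg_inv, ← Function.iterate_add_apply,
      ← Function.iterate_add_apply, add_comm]

theorem Dg_mul (σ : G →* G) (m : ℕ) (g : G) : (σ^[m]) g = g * Dg σ m g := by
  rw [Dg, mul_inv_cancel_left]

theorem Dg_one (σ : G →* G) (m : ℕ) : Dg σ m 1 = 1 := by
  rw [Dg, sg_one, inv_one, one_mul]

end grp

theorem CU.mul {z w : U} (hz : z ∈ CU U) (hw : w ∈ CU U) : z * w ∈ CU U :=
  ⟨mul_mem hz.1 hw.1, fun a => by rw [mul_assoc, hw.2, ← mul_assoc, hz.2, mul_assoc]⟩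

theorem CU.star {z : U} (hz : z ∈ CU U) : star z ∈ CU U := by
  refine ⟨Unitary.star_mem hz.1, fun a => ?_⟩
  have := congrArg Star.star (hz.2 (Star.star a))
  rw [star_mul, star_mul, star_star] at this
  exact this.symm

theorem FC.mul {α : U →⋆ₐ[ℂ] U} {z w : U} (hz : z ∈ FC α) (hw : w ∈ FC α) : z * w ∈ FC α :=
  ⟨CU.mul hz.1 hw.1, by rw [map_mul, hz.2, hw.2]⟩

theorem FC.star {α : U →⋆ₐ[ℂ] U} {z : U} (hz : z ∈ FC α) : star z ∈ FC α :=
  ⟨CU.star hz.1, by rw [map_star, hz.2]⟩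

theorem FC.one (α : U →⋆ₐ[ℂ] U) : (1 : U) ∈ FC α :=
  ⟨⟨one_mem _, fun a => by rw [one_mul, mul_one]⟩, map_one α⟩

theorem FC.iter {α : U →⋆ₐ[ℂ] U} {z : U} (hz : z ∈ FC α) (n : ℕ) : (α^[n]) z = z := by
  induction n with
  | zero => rfl
  | succ n ih => rw [Function.iterate_succ_apply, hz.2, ih]

variable {G : Type} [Group G] {u : G → U} {α : U →⋆ₐ[ℂ] U} {σ : G →* G}

theorem TwC.one (h : TwC α u) : u 1 ∈ FC α := by
  obtain ⟨z, hz, h1⟩ := h.mul 1 1
  rw [mul_one] at h1
  -- `u 1 = z * (u 1 * u 1)`, hence `1 = z * u 1`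
  have h2 : (1 : U) = z * u 1 := by
    have := congrArg (fun x => x * star (u 1)) h1
    simp only [mul_assoc] at this
    rw [Unitary.mul_star_self_of_mem (h.unit 1), mul_one] at this
    exact this
  have h3 : u 1 = star z := by
    have := congrArg (fun x => star z * x) h2
    simp only [← mul_assoc] at this
    rw [Unitary.star_mul_self_of_mem hz.1.1, one_mul, mul_one] at this
    exact this.symm
  rw [h3]
  exact FC.star hz

/-- commuting up to central unitaries -/
def CC (u : G → U) (g h : G) : Prop := ∃ z ∈ CU U, u g * u h = z * (u h * u g)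

variable (U) in
/-- the group of central unitaries -/
def Zs : Subgroup (unitary U) where
  carrier := {z | ∀ a : U, (z : U) * a = a * z}
  mul_mem' := by
    intro z w hz hw a
    show ((z : U) * w) * a = a * (z * w)
    rw [mul_assoc, hw a, ← mul_assoc, hz a, mul_assoc]
  one_mem' := by
    intro a
    show (1 : U) * a = a * 1
    rw [one_mul, mul_one]
  inv_mem' := by
    intro z hz a
    exact (CU.star ⟨z.2, hz⟩).2 a

instance : (Zs U).Normal := by
  refine ⟨fun z hz w => ?_⟩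
  have e : w * z * w⁻¹ = z := by
    have : w * z = z * w := Subtype.ext (hz w).symm
    rw [this, mul_inv_cancel_right]
  rw [e]
  exact hz

/-- the homomorphism to the group of unitaries modulo central unitaries -/
def qh (hu : TwC α u) : G →* (unitary U ⧸ Zs U) :=
  MonoidHom.mk' (fun g => ((⟨u g, hu.unit g⟩ : unitary U) : unitary U ⧸ Zs U)) (by
    intro g h
    obtain ⟨z, hz, h1⟩ := hu.mul g h
    rw [← QuotientGroup.mk_mul]
    refine Eq.symm (QuotientGroup.eq.2 ?_)
    have e : (⟨u (g * h), hu.unit _⟩ : unitary U) =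
        (⟨z, hz.1.1⟩ : unitary U) * (⟨u g, hu.unit g⟩ * ⟨u h, hu.unit h⟩) := Subtype.ext h1
    have hzc : ∀ w : unitary U, (⟨z, hz.1.1⟩ : unitary U) * w = w * ⟨z, hz.1.1⟩ := fun w =>
      Subtype.ext (hz.1.2 w)
    rw [e, hzc, inv_mul_cancel_left]
    exact hz.1.2)

theorem cc_iff (hu : TwC α u) (g h : G) : CC u g h ↔ Commute (qh hu g) (qh hu h) := by
  constructor
  · rintro ⟨z, hz, h1⟩
    show ((⟨u g, hu.unit g⟩ : unitary U) : unitary U ⧸ Zs U) *
      ((⟨u h, hu.unit h⟩ : unitary U) : unitary U ⧸ Zs U) =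
      ((⟨u h, hu.unit h⟩ : unitary U) : unitary U ⧸ Zs U) *
      ((⟨u g, hu.unit g⟩ : unitary U) : unitary U ⧸ Zs U)
    rw [← QuotientGroup.mk_mul, ← QuotientGroup.mk_mul]
    refine Eq.symm (QuotientGroup.eq.2 ?_)
    have e : (⟨u g, hu.unit g⟩ * ⟨u h, hu.unit h⟩ : unitary U) =
        (⟨z, hz.1⟩ : unitary U) * (⟨u h, hu.unit h⟩ * ⟨u g, hu.unit g⟩) := Subtype.ext h1
    have hzc : ∀ w : unitary U, (⟨z, hz.1⟩ : unitary U) * w = w * ⟨z, hz.1⟩ := fun w =>
      Subtype.ext (hz.2 w)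
    rw [e, hzc, inv_mul_cancel_left]
    exact hz.2
  · intro hc
    have h1 : (((⟨u h, hu.unit h⟩ * ⟨u g, hu.unit g⟩ : unitary U)) : unitary U ⧸ Zs U) =
        ((⟨u g, hu.unit g⟩ * ⟨u h, hu.unit h⟩ : unitary U) : unitary U ⧸ Zs U) := by
      rw [QuotientGroup.mk_mul, QuotientGroup.mk_mul]
      exact hc.symm
    have h2 := QuotientGroup.eq.1 h1
    set z : unitary U := (⟨u h, hu.unit h⟩ * ⟨u g, hu.unit g⟩)⁻¹ *
      (⟨u g, hu.unit g⟩ * ⟨u h, hu.unit h⟩) with hz
    refine ⟨z, ⟨z.2, h2⟩, ?_⟩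
    have h3 : (⟨u g, hu.unit g⟩ * ⟨u h, hu.unit h⟩ : unitary U) =
        (⟨u h, hu.unit h⟩ * ⟨u g, hu.unit g⟩) * z := by
      rw [hz, mul_inv_cancel_left]
    have h4 := congrArg (fun x : unitary U => (x : U)) h3
    have h5 : u g * u h = (u h * u g) * z := h4
    rw [h5]
    exact (h2 _).symm

/-- all words in the elements of an orbit commute up to central unitaries -/
theorem cc_orbit (hu : TwC α u) (g : G) (hg : ∀ n l : ℕ, CC u ((σ^[n]) g) ((σ^[l]) g)) :
    ∀ x ∈ Subgroup.closure (Set.range fun n : ℕ => (σ^[n]) g),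
    ∀ y ∈ Subgroup.closure (Set.range fun n : ℕ => (σ^[n]) g), CC u x y := by
  set S : Set G := Set.range fun n : ℕ => (σ^[n]) g with hS
  have h0 : ∀ x ∈ S, ∀ y ∈ S, Commute (qh hu x) (qh hu y) := by
    rintro _ ⟨n, rfl⟩ _ ⟨k, rfl⟩
    exact (cc_iff hu _ _).1 (hg n k)
  have h1 : ∀ x ∈ Subgroup.closure S, ∀ y ∈ S, Commute (qh hu x) (qh hu y) := by
    have : Subgroup.closure S ≤ (Subgroup.centralizer (qh hu '' S)).comap (qh hu) := by
      rw [Subgroup.closure_le]
      intro x hx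
      refine Subgroup.mem_centralizer_iff.2 ?_
      rintro _ ⟨y, hy, rfl⟩
      exact h0 y hy x hx
    intro x hx y hy
    exact (Subgroup.mem_centralizer_iff.1 (this hx) _ ⟨y, hy, rfl⟩).symm
  have h2 : Subgroup.closure S ≤
      (Subgroup.centralizer (qh hu '' (Subgroup.closure S : Set G))).comap (qh hu) := by
    rw [Subgroup.closure_le]
    intro x hx
    refine Subgroup.mem_centralizer_iff.2 ?_
    rintro _ ⟨y, hy, rfl⟩
    exact h1 y hy x hx
  intro x hx y hy
  exact (cc_iff hu _ _).2 (Subgroup.mem_centralizer_iff.1 (h2 hx) _ ⟨y, hy, rfl⟩).symm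

theorem Dg_mem (σ : G →* G) (m : ℕ) (g : G) (i : ℕ) :
    ((Dg σ m)^[i]) g ∈ Subgroup.closure (Set.range fun n : ℕ => (σ^[n]) g) := by
  induction i with
  | zero => exact Subgroup.subset_closure ⟨0, rfl⟩
  | succ i ih =>
    rw [Function.iterate_succ_apply', Dg]
    refine Subgroup.mul_mem _ (Subgroup.inv_mem _ ih) ?_
    have h1 : ∀ x ∈ Subgroup.closure (Set.range fun n : ℕ => (σ^[n]) g),
        (σ^[m]) x ∈ Subgroup.closure (Set.range fun n : ℕ => (σ^[n]) g) := by
      intro x hx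
      induction hx using Subgroup.closure_induction with
      | mem x hx =>
        obtain ⟨n, rfl⟩ := hx
        refine Subgroup.subset_closure ⟨m + n, ?_⟩
        rw [← Function.iterate_add_apply]
      | one => rw [sg_one]; exact Subgroup.one_mem _
      | mul x y _ _ hx hy => rw [sg_mul]; exact Subgroup.mul_mem _ hx hy
      | inv x _ hx => rw [sg_inv]; exact Subgroup.inv_mem _ hx
    exact h1 _ ih

theorem cov_iter (hα : ∀ g, ∃ z ∈ FC α, α (u g) = z * u (σ g)) (n : ℕ) (g : G) :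
    ∃ z ∈ FC α, (α^[n]) (u g) = z * u ((σ^[n]) g) := by
  induction n generalizing g with
  | zero => exact ⟨1, FC.one α, by simp⟩
  | succ n ih =>
    obtain ⟨c, hc, h1⟩ := hα g
    obtain ⟨c', hc', h2⟩ := ih (σ g)
    refine ⟨c * c', FC.mul hc hc', ?_⟩
    rw [Function.iterate_succ_apply, Function.iterate_succ_apply, h1, AB.iter_mul, h2, FC.iter hc,
      mul_assoc]

section irr

variable {K : Type} [NormedAddCommGroup K] [InnerProductSpace ℂ K] [CompleteSpace K]

/-- central unitaries act as scalars of modulus one in irreducible representations -/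
theorem scal {π : U →⋆ₐ[ℂ] (K →L[ℂ] K)} (hπ : Irr π) {z : U} (hz : z ∈ CU U) :
    ∃ θ : ℝ, ∀ x, π z x = ee θ • x := by
  by_cases hK : Subsingleton K
  · exact ⟨0, fun x => Subsingleton.elim _ _⟩
  rw [not_subsingleton_iff_nontrivial] at hK
  obtain ⟨c, hc⟩ := hπ (π z) fun a => by rw [← map_mul, ← map_mul, hz.2]
  have hcx : ∀ x, π z x = c • x := fun x => by rw [hc]; simp
  have hn : ‖c‖ = 1 := by
    obtain ⟨x, hx⟩ := exists_ne (0 : K)
    have h1 : ‖opU π z hz.1 x‖ = ‖x‖ := LinearIsometryEquiv.norm_map _ _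
    rw [opU_apply, hcx, norm_smul] at h1
    have hx' : ‖x‖ ≠ 0 := norm_ne_zero_iff.2 hx
    exact mul_right_cancel₀ hx' (by rw [h1, one_mul])
  obtain ⟨θ, rfl⟩ := exists_ee hn
  exact ⟨θ, hcx⟩

/-- **the orbits in irreducible representations** -/
theorem orbit_form (hu : TwC α u) (hα : ∀ g, ∃ z ∈ FC α, α (u g) = z * u (σ g))
    {π : U →⋆ₐ[ℂ] (K →L[ℂ] K)} (hπ : Irr π) (g : G) (m k r : ℕ)
    (hk : ((Dg σ m)^[k]) g = 1)
    (hd : ∀ n l : ℕ, CC u ((σ^[n]) (Dg σ m g)) ((σ^[l]) (Dg σ m g))) :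
    ∃ (A : Type) (_ : AddCommGroup A) (V : A → (K ≃ₗᵢ[ℂ] K)) (B : A →+ A →+ ℝ) (a : ℕ → A)
      (R : ℕ → ℝ) (Y : K →L[ℂ] K), BiProj (fun x => (V x).toLinearIsometry) B ∧ IsPF R ∧
      ∀ n x, π ((α^[m * n + r]) (u g)) x = Y (ee (R n) • V (newt a (k + 2) n) x) := by
  set h : ℕ → G := fun i => ((Dg σ m)^[i]) ((σ^[r]) g) with hh
  have hhk : h (k + 1) = 1 := by
    rw [hh]
    simp only
    rw [Dg_comm, Function.iterate_succ_apply', hk, Dg_one, sg_one]
  have hmem : ∀ i, h (i + 1) ∈ Subgroup.closure (Set.range fun n : ℕ => (σ^[n]) (Dg σ m g)) := by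
    intro i
    have h1 : h (i + 1) = ((Dg σ m)^[i]) ((σ^[r]) (Dg σ m g)) := by
      rw [hh]
      simp only
      rw [Function.iterate_succ_apply]
      congr 1
      exact Dg_comm σ m r 1 g
    rw [h1]
    refine Subgroup.closure_mono ?_ (Dg_mem σ m _ i)
    rintro _ ⟨n, rfl⟩
    refine ⟨n + r, ?_⟩
    simp only [Function.iterate_add_apply]
  have hcomm : ∀ i j, CommS (opU π (u (h (i + 1))) (hu.unit _))
      (opU π (u (h (j + 1))) (hu.unit _)) := by
    intro i j
    obtain ⟨z, hz, h1⟩ := cc_orbit hu _ hd _ (hmem i) _ (hmem j)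
    obtain ⟨θ, hθ⟩ := scal hπ hz
    refine ⟨ee θ, norm_ee _, fun x => ?_⟩
    simp only [opU_apply]
    rw [← mul_apply_eq_comp, ← mul_apply_eq_comp, ← map_mul, h1, map_mul, mul_apply_eq_comp, hθ,
      map_mul]
  obtain ⟨A, iA, V, B, a', hV, ha, -⟩ :=
    exists_biproj (fun i => opU π (u (h (i + 1))) (hu.unit _)) (k + 1) fun i _ j _ => hcomm i j
  have hstep : ∀ i, ∃ z ∈ FC α, (α^[m]) (u (h i)) = z * (u (h i) * u (h (i + 1))) := by
    intro i
    obtain ⟨c, hc, h1⟩ := cov_iter hα m (h i)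
    obtain ⟨c', hc', h2⟩ := hu.mul (h i) (h (i + 1))
    have e : (σ^[m]) (h i) = h i * h (i + 1) := by
      rw [Dg_mul, hh]
      simp only [Function.iterate_succ_apply']
    refine ⟨c * c', FC.mul hc hc', ?_⟩
    rw [h1, e, h2, mul_assoc]
  choose z hz hzs using hstep
  choose θ hθ using fun i => scal hπ (hz i).1
  obtain ⟨R, hR, hX⟩ := orbit_formula hV k (fun i n x => π ((α^[m * n]) (u (h (i + 1)))) x) a'
    (fun i => θ (i + 1))
    (fun i hi x => by
      rw [mul_zero, Function.iterate_zero, id, ha i (by omega), opU_apply])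
    (fun i _ n x => by
      rw [Nat.mul_succ, Function.iterate_add_apply, hzs, AB.iter_mul, FC.iter (hz (i + 1)),
        AB.iter_mul, map_mul, mul_apply_eq_comp, hθ, map_mul]
      rfl)
    (fun n x => by
      have h1 := hu.one
      rw [ha k (by omega), opU_apply, hhk, FC.iter h1])
  -- summation
  let a : ℕ → A := fun i => Nat.casesOn i 0 a'
  set P : ℕ → A := newt a (k + 2) with hP
  set g' : ℕ → ℝ := fun n => θ 0 + R n + B (P n) (newt a' (k + 1) n) with hg'
  have hgP : IsPF g' := ((IsPF.const _).add hR).add (IsPF.newt₂ B _ _ _ _)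
  set S : ℕ → ℝ := fun n => ∑ j ∈ range n, g' j with hS
  have hSP : IsPF S := hgP.antidiff fun n => by rw [hS]; simp only [Finset.sum_range_succ]
  have hX0 : ∀ n x, π ((α^[m * n]) (u (h 0))) x = π (u (h 0)) (ee (S n) • V (P n) x) := by
    intro n
    induction n with
    | zero =>
      intro x
      have e : P 0 = 0 := by
        rw [hP, newt, Finset.sum_range_succ']
        simp [a]
      rw [mul_zero, Function.iterate_zero, id, e, hS]
      have h3 : V 0 x = x := BiProj.zero hV x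
      simp [ee_zero, h3]
    | succ n ihn =>
      intro x
      have hV' := hV (P n) (newt a' (k + 1) n) x
      simp only [LinearIsometryEquiv.coe_toLinearIsometry] at hV'
      have e2 : P (n + 1) = P n + newt a' (k + 1) n := by
        rw [hP, newt_diff]
      rw [Nat.mul_succ, Function.iterate_add_apply, hzs, AB.iter_mul, FC.iter (hz 0),
        AB.iter_mul, map_mul, mul_apply_eq_comp, hθ, map_mul, mul_apply_eq_comp]
      have h4 := hX n x
      rw [show (0 : ℕ) + 1 = 1 from rfl] at *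
      rw [h4, ihn, LinearIsometryEquiv.map_smul, hV', e2, ← map_smul, smul_smul, smul_smul,
        smul_smul, ← ee_add, ← ee_add, ← ee_add]
      congr 3
      rw [hS]
      simp only [Finset.sum_range_succ, hg']
      ring
  obtain ⟨c, hc, h1⟩ := cov_iter hα r g
  refine ⟨A, iA, V, B, a, S, π c * π (u ((σ^[r]) g)), hV, hSP, fun n x => ?_⟩
  rw [Function.iterate_add_apply, h1, AB.iter_mul, FC.iter hc, map_mul, mul_apply_eq_comp]
  have h3 := hX0 n x
  rw [show h 0 = (σ^[r]) g from rfl] at h3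
  rw [h3]
  rfl

/-- Möbius orthogonality in irreducible representations -/
theorem irr_strong (hu : TwC α u) (hα : ∀ g, ∃ z ∈ FC α, α (u g) = z * u (σ g))
    {π : U →⋆ₐ[ℂ] (K →L[ℂ] K)} (hπ : Irr π) (g : G) {m : ℕ} (hm : 0 < m) (k : ℕ)
    (hk : ((Dg σ m)^[k]) g = 1)
    (hd : ∀ n l : ℕ, CC u ((σ^[n]) (Dg σ m g)) ((σ^[l]) (Dg σ m g)))
    (τ : ℝ) {r : ℕ} (hr : r < m) (ξ : K) :
    Tendsto (fun N : ℕ => (N : ℂ)⁻¹ • ∑ j ∈ range N, mob (m * j + r) •
      (ee ((m * j + r : ℕ) * τ) • π ((α^[m * j + r]) (u g)) ξ)) atTop (𝓝 0) := by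
  obtain ⟨A, iA, V, B, a, R, Y, hV, hR, h1⟩ := orbit_form hu hα hπ g m k r hk hd
  have h2 := main_poly (r := r) hV hm hr (k + 1) a (fun j => R j + ((m : ℝ) * j + r) * τ)
    (hR.add ((((IsPF.const (m : ℝ)).mul IsPF.id).add (IsPF.const (r : ℝ))).mul (IsPF.const τ))) ξ
  have h3 := (Y.continuous.tendsto 0).comp h2
  rw [map_zero] at h3
  refine h3.congr fun N => ?_
  rw [Function.comp_apply, TN, map_smul, map_sum]
  congr 1
  refine Finset.sum_congr rfl fun j _ => ?_
  rw [h1, map_smul, map_smul, map_smul, smul_smul (ee _) (ee _), ← ee_add,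
    LinearIsometryEquiv.coe_toLinearIsometry]
  congr 3
  push_cast
  ring

end irr

/-- the averages of the orbit with a phase -/
noncomputable def SN (α : U →⋆ₐ[ℂ] U) (x : U) (τ : ℝ) (N : ℕ) : U :=
  (N : ℂ)⁻¹ • ∑ n ∈ range N, (mob n * ee (n * τ)) • (α^[n]) x

theorem SN_vav (α : U →⋆ₐ[ℂ] U) (x : U) (τ : ℝ) (N : ℕ) {K : Type} [NormedAddCommGroup K]
    [InnerProductSpace ℂ K] [CompleteSpace K] (π : U →⋆ₐ[ℂ] (K →L[ℂ] K)) (ξ : K) :
    π (SN α x τ N) ξ = vav (fun n => mob n • (ee (n * τ) • π ((α^[n]) x) ξ)) N := by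
  rw [SN, vav, map_smul, map_sum, smul_apply, _root_.sum_apply]
  congr 1
  exact Finset.sum_congr rfl fun n _ => by rw [map_smul, smul_apply, mul_smul]

theorem SN_norm (α : U →⋆ₐ[ℂ] U) (x : U) (τ : ℝ) (N : ℕ) : ‖SN α x τ N‖ ≤ ‖x‖ := by
  have e : SN α x τ N = vav (fun n => (mob n * ee (n * τ)) • (α^[n]) x) N := rfl
  rw [e]
  refine vav_le (norm_nonneg _) (fun n => ?_) N
  rw [norm_smul, norm_mul, norm_ee, mul_one]
  calc _ ≤ 1 * ‖x‖ := by
        gcongr
        · exact norm_mob_le _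
        · exact iter_norm α n x
    _ = _ := one_mul _

/-- Möbius orthogonality of the orbit of `x` with phases, strongly in all representations -/
def GoodP (β : U →⋆ₐ[ℂ] U) (x : U) : Prop :=
  ∀ (τ : ℝ) (K : Type) [NormedAddCommGroup K] [InnerProductSpace ℂ K] [CompleteSpace K]
    (π : U →⋆ₐ[ℂ] (K →L[ℂ] K)) (ξ : K),
    Tendsto (vav fun n => mob n • (ee (n * τ) • π ((β^[n]) x) ξ)) atTop (𝓝 0)

/-- **It is enough to consider irreducible representations.** -/
theorem GoodP.of_irr {β : U →⋆ₐ[ℂ] U} {x : U}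
    (h : ∀ (τ : ℝ) (K : Type) [NormedAddCommGroup K] [InnerProductSpace ℂ K] [CompleteSpace K]
      (π : U →⋆ₐ[ℂ] (K →L[ℂ] K)), Irr π → ∀ ξ : K,
      Tendsto (vav fun n => mob n • (ee (n * τ) • π ((β^[n]) x) ξ)) atTop (𝓝 0)) :
    GoodP β x := by
  intro τ K _ _ _ π ξ
  let _ : PartialOrder U := CStarAlgebra.spectralOrder U
  have _ : StarOrderedRing U := CStarAlgebra.spectralOrderedRing U
  have hb : ∀ N, ‖star (SN β x τ N) * SN β x τ N‖ ≤ ‖x‖ * ‖x‖ := by
    intro N
    rw [CStarRing.norm_star_mul_self]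
    have := SN_norm β x τ N
    gcongr
  have hsq : ∀ (K' : Type) [NormedAddCommGroup K'] [InnerProductSpace ℂ K'] [CompleteSpace K']
      (π' : U →⋆ₐ[ℂ] (K' →L[ℂ] K')) (η : K') (a : U),
      ⟪η, π' (star a * a) η⟫_ℂ = ((‖π' a η‖ : ℂ)) ^ 2 := by
    intro K' _ _ _ π' η a
    rw [map_mul, map_star, mul_apply_eq_comp, ContinuousLinearMap.star_eq_adjoint,
      ContinuousLinearMap.adjoint_inner_right, inner_self_eq_norm_sq_to_K]
    rfl
  have h1 : ∀ φ : U →ₚ[ℂ] ℂ, Pure φ →
      Tendsto (fun N => φ (star (SN β x τ N) * SN β x τ N)) atTop (𝓝 0) := by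
    intro φ hφ
    have h2 := h τ φ.GNS φ.gnsStarAlgHom (irr_of_pure hφ) (om φ)
    rw [tendsto_zero_iff_norm_tendsto_zero] at h2
    have h3 := (Complex.continuous_ofReal.tendsto 0).comp h2
    rw [Complex.ofReal_zero] at h3
    have h4 := h3.pow 2
    rw [zero_pow two_ne_zero] at h4
    refine h4.congr fun N => ?_
    rw [← gns_inner, hsq, SN_vav]
    rfl
  have h5 := rain hb h1 (vec π ξ)
  have h6 : Tendsto (fun N => ‖π (SN β x τ N) ξ‖ ^ 2) atTop (𝓝 0) := by
    have h7 := (Complex.continuous_re.tendsto 0).comp h5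
    rw [Complex.zero_re] at h7
    refine h7.congr fun N => ?_
    rw [Function.comp_apply, vec_apply, hsq, ← Complex.ofReal_pow, Complex.ofReal_re]
  rw [tendsto_zero_iff_norm_tendsto_zero]
  have h8 := h6.sqrt
  rw [Real.sqrt_zero] at h8
  refine h8.congr fun N => ?_
  rw [Real.sqrt_sq (norm_nonneg _), SN_vav]

/-- quasi-unipotence at `g`; the differences commute up to central unitaries -/
def QG (σ : G →* G) (u : G → U) (g : G) : Prop := ∃ m : ℕ, 0 < m ∧ (∃ k : ℕ, ((Dg σ m)^[k]) g = 1) ∧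
  ∀ n l : ℕ, CC u ((σ^[n]) (Dg σ m g)) ((σ^[l]) (Dg σ m g))

/-- the generators -/
theorem GoodP.gen (hu : TwC α u)
    (hα : ∀ g, ∃ z ∈ FC α, α (u g) = z * u (σ g)) {g : G} (hg : QG σ u g) : GoodP α (u g) := by
  obtain ⟨m, hm, ⟨k, hk⟩, hd⟩ := hg
  refine GoodP.of_irr fun τ K _ _ _ π hπ ξ => ?_
  refine vav_of_residues (C := ‖u g‖ * ‖ξ‖) (by positivity) (fun n => ?_) hm fun r hr => ?_
  · rw [norm_smul, norm_smul, norm_ee, one_mul]
    calc _ ≤ 1 * (‖u g‖ * ‖ξ‖) := by
          gcongr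
          · exact norm_mob_le _
          · refine (ContinuousLinearMap.le_opNorm _ _).trans ?_
            gcongr
            exact (NonUnitalStarAlgHom.norm_apply_le π _).trans (iter_norm α n _)
      _ = _ := one_mul _
  · exact irr_strong hu hα hπ g hm k hk hd τ hr ξ

/-- coefficients fixed by `α` -/
theorem GoodP.coef {β : U →⋆ₐ[ℂ] U} {x c : U} (h : GoodP β x) (hc : β c = c) :
    GoodP β (c * x) := by
  intro τ K _ _ _ π ξ
  have hn : ∀ n : ℕ, (β^[n]) c = c := by
    intro n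
    induction n with
    | zero => rfl
    | succ n ih => rw [Function.iterate_succ_apply, hc, ih]
  have h1 := ((π c).continuous.tendsto 0).comp (h τ K π ξ)
  rw [map_zero] at h1
  refine h1.congr fun N => ?_
  rw [Function.comp_apply, vav, vav, map_smul, map_sum]
  congr 1
  refine Finset.sum_congr rfl fun n _ => ?_
  rw [map_smul, map_smul, AB.iter_mul, hn, map_mul, mul_apply_eq_comp]

/-- passing to an extension, with eigenvectors -/
theorem GoodP.ext {β : U →⋆ₐ[ℂ] U} {x : U} (h : GoodP β x) {W : Type} [CStarAlgebra W]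
    (γ : W →⋆ₐ[ℂ] W) (ι : U →⋆ₐ[ℂ] W) (hι : ∀ a, γ (ι a) = ι (β a)) {w : W} {l : ℂ}
    (hl : ‖l‖ = 1) (hw : γ w = l • w) : Good γ (ι x * w) := by
  obtain ⟨τ, rfl⟩ := exists_ee hl
  intro K _ _ _ π ξ
  have hn : ∀ n : ℕ, (γ^[n]) (ι x) = ι ((β^[n]) x) := by
    intro n
    induction n with
    | zero => rfl
    | succ n ih => rw [Function.iterate_succ_apply', ih, hι, Function.iterate_succ_apply']
  refine (h τ K (π.comp ι) (π w ξ)).congr fun N => ?_
  rw [vav, vav]
  congr 1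
  refine Finset.sum_congr rfl fun n _ => ?_
  rw [AB.iter_mul, eig_iter hw, hn, map_mul, map_smul, mul_apply_eq_comp, smul_apply, map_smul]
  rfl

end Pool.Agent.TH261.NP
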