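import Pool.Agent.TH261.NP.Irr
import Pool.Agent.H500R2.PR.H6

/-! Scalar sequences along polynomial orbits in projective representations, and their products. -/

set_option autoImplicit false
set_option linter.unusedSectionVars false

open Finset Filter Topology

namespace Pool.Agent.TH261.NP

open Pool.Agent.Helper188.NCM Pool.Agent.TH261.AB Pool.Agent.W661.Nrm
open Pool.Agent.H500R2.PR.TH6
open scoped InnerProductSpace ComplexOrder

section seq

variable {A : Type*} [AddCommGroup A]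

theorem top_newt (k : ℕ) : ∀ (P : ℕ → A) (b : A), Top k P b → ∃ p : ℕ → A, ∀ n, P n = newt p (k + 1) n := by
  induction k with
  | zero =>
    intro P b h
    exact ⟨fun _ => b, fun n => by rw [h n]; simp [newt]⟩
  | succ k ih =>
    intro P b h
    obtain ⟨p', hp'⟩ := ih _ b h
    refine ⟨fun i => Nat.casesOn i (P 0) p', fun n => ?_⟩
    induction n with
    | zero =>
      rw [newt, Finset.sum_range_succ']
      simp
    | succ n ihn =>
      rw [newt_diff, ← ihn]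
      have := hp' n
      simp only at this ⊢
      rw [← this]
      abel

theorem top_up {k : ℕ} {P : ℕ → A} {b : A} (h : Top k P b) : Top (k + 1) P 0 := by
  have h1 := (h.shift 1).sub h
  rw [sub_self] at h1
  exact h1

theorem top_le {k l : ℕ} {P : ℕ → A} {b : A} (h : Top k P b) (hkl : k ≤ l) :
    ∃ b' : A, Top l P b' := by
  obtain ⟨d, rfl⟩ := Nat.exists_eq_add_of_le hkl
  clear hkl
  induction d with
  | zero => exact ⟨b, h⟩
  | succ d ih =>
    obtain ⟨b', hb'⟩ := ih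
    exact ⟨0, top_up hb'⟩

theorem top_prod {A' : Type*} [AddCommGroup A'] (k : ℕ) : ∀ (P : ℕ → A) (Q : ℕ → A') (b : A) (c : A'),
    Top k P b → Top k Q c → Top k (fun n => ((P n, Q n) : A × A')) (b, c) := by
  induction k with
  | zero =>
    intro P Q b c h1 h2 n
    show (P n, Q n) = (b, c)
    rw [h1 n, h2 n]
  | succ k ih =>
    intro P Q b c h1 h2
    exact ih _ _ b c h1 h2

theorem pf_dil {f : ℕ → ℝ} (hf : IsPF f) (s t : ℕ) : IsPF fun n => f (s * n + t) := by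
  obtain ⟨R, hR⟩ := hf
  refine ⟨R.comp (Polynomial.C (s : ℝ) * Polynomial.X + Polynomial.C (t : ℝ)), fun n => ?_⟩
  show f (s * n + t) = _
  rw [hR, Polynomial.eval_comp]
  simp

end seq

/-- scalar sequences along polynomial orbits in projective representations of abelian groups -/
def IsPS (F : ℕ → ℂ) : Prop :=
  ∃ (K : Type) (_ : NormedAddCommGroup K) (_ : InnerProductSpace ℂ K) (_ : CompleteSpace K)
    (A : Type) (_ : AddCommGroup A) (V : A → (K ≃ₗᵢ[ℂ] K)) (B : A →+ A →+ ℝ)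
    (P : ℕ → A) (k : ℕ) (b : A) (f : ℕ → ℝ) (ξ η : K),
    BiProj (fun x => (V x).toLinearIsometry) B ∧ Top k P b ∧ IsPF f ∧
    ∀ n, F n = ee (f n) * ⟪η, V (P n) ξ⟫_ℂ

theorem IsPS.const (c : ℂ) : IsPS fun _ => c := by
  refine ⟨ℂ, inferInstance, inferInstance, inferInstance, PUnit, inferInstance, fun _ => 1, 0,
    fun _ => 0, 0, 0, fun _ => 0, c, 1, ?_, fun n => rfl, IsPF.const 0, fun n => ?_⟩
  · intro a b x
    simp [ee_zero]
  · simp [ee_zero]

theorem IsPS.dil {F : ℕ → ℂ} (h : IsPS F) (s t : ℕ) : IsPS fun n => F (s * n + t) := by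
  obtain ⟨K, i1, i2, i3, A, i4, V, B, P, k, b, f, ξ, η, hV, hP, hf, hF⟩ := h
  exact ⟨K, i1, i2, i3, A, i4, V, B, fun n => P (s * n + t), k, s ^ k • b, fun n => f (s * n + t),
    ξ, η, hV, Top.dilate (hP.shift t) s, pf_dil hf s t, fun n => hF _⟩

theorem IsPS.phase {F : ℕ → ℂ} (h : IsPS F) {g : ℕ → ℝ} (hg : IsPF g) :
    IsPS fun n => ee (g n) * F n := by
  obtain ⟨K, i1, i2, i3, A, i4, V, B, P, k, b, f, ξ, η, hV, hP, hf, hF⟩ := h
  exact ⟨K, i1, i2, i3, A, i4, V, B, P, k, b, fun n => g n + f n, ξ, η, hV, hP, hg.add hf,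
    fun n => by
      show ee (g n) * F n = ee (g n + f n) * _
      rw [hF, ← mul_assoc, ← ee_add]⟩

theorem IsPS.mob {F : ℕ → ℂ} (h : IsPS F) {m r : ℕ} (hm : 0 < m) (hr : r < m) :
    Tendsto (vav fun j => mob (m * j + r) * F j) atTop (𝓝 0) := by
  obtain ⟨K, i1, i2, i3, A, i4, V, B, P, k, b, f, ξ, η, hV, hP, hf, hF⟩ := h
  obtain ⟨p, hp⟩ := top_newt k P b hP
  have h1 := main_poly (r := r) hV hm hr k p f hf ξ
  have h2 := (continuous_const.inner continuous_id : Continuous fun y : K =>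
    inner ℂ η y).tendsto 0
  rw [inner_zero_right] at h2
  refine (h2.comp h1).congr fun N => ?_
  rw [Function.comp_apply, TN, vav, inner_smul_right, inner_sum]
  congr 1
  refine Finset.sum_congr rfl fun j _ => ?_
  rw [inner_smul_right, inner_smul_right, hF, hp]
  rfl

section tens

variable {H1 H2 : Type} [NormedAddCommGroup H1] [InnerProductSpace ℂ H1] [CompleteSpace H1]
  [NormedAddCommGroup H2] [InnerProductSpace ℂ H2] [CompleteSpace H2]

/-- the tensor product of two unitaries -/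
noncomputable def tV (V1 : H1 ≃ₗᵢ[ℂ] H1) (V2 : H2 ≃ₗᵢ[ℂ] H2) : KK H1 H2 ≃ₗᵢ[ℂ] KK H1 H2 :=
  opU (θ1 H1 H2) _ (Unitary.linearIsometryEquiv.symm V1).2 *
    opU (θ2 H1 H2) _ (Unitary.linearIsometryEquiv.symm V2).2

theorem tV_tt (V1 : H1 ≃ₗᵢ[ℂ] H1) (V2 : H2 ≃ₗᵢ[ℂ] H2) (x : H1) (y : H2) :
    tV V1 V2 (tt x y) = tt (V1 x) (V2 y) := by
  show A1 H2 _ (A2 H1 _ (tt x y)) = _
  rw [A2_tt, A1_tt]
  rfl

theorem tV_mul (V1 W1 X1 : H1 ≃ₗᵢ[ℂ] H1) (V2 W2 X2 : H2 ≃ₗᵢ[ℂ] H2) {θ1 θ2 : ℝ}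
    (h1 : ∀ x, V1 (W1 x) = ee θ1 • X1 x) (h2 : ∀ x, V2 (W2 x) = ee θ2 • X2 x) (z : KK H1 H2) :
    tV V1 V2 (tV W1 W2 z) = ee (θ1 + θ2) • tV X1 X2 z := by
  have : ((tV V1 V2).toContinuousLinearEquiv : KK H1 H2 →L[ℂ] KK H1 H2).comp
      ((tV W1 W2).toContinuousLinearEquiv : KK H1 H2 →L[ℂ] KK H1 H2) =
      ee (θ1 + θ2) • ((tV X1 X2).toContinuousLinearEquiv : KK H1 H2 →L[ℂ] KK H1 H2) := by
    refine ext_tt fun x y => ?_
    show tV V1 V2 (tV W1 W2 (tt x y)) = ee (θ1 + θ2) • tV X1 X2 (tt x y)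
    rw [tV_tt, tV_tt, tV_tt, h1, h2, tt_smul_left, tt_smul_right, smul_smul, ee_add]
  exact congrArg (fun T : KK H1 H2 →L[ℂ] KK H1 H2 => T z) this

end tens

theorem IsPS.mul {F F' : ℕ → ℂ} (h : IsPS F) (h' : IsPS F') : IsPS fun n => F n * F' n := by
  obtain ⟨K, i1, i2, i3, A, i4, V, B, P, k, b, f, ξ, η, hV, hP, hf, hF⟩ := h
  obtain ⟨K', i1', i2', i3', A', i4', V', B', P', k', b', f', ξ', η', hV', hP', hf', hF'⟩ := h'
  obtain ⟨c, hc⟩ := top_le hP (le_max_left k k')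
  obtain ⟨c', hc'⟩ := top_le hP' (le_max_right k k')
  refine ⟨KK K K', inferInstance, inferInstance, inferInstance, A × A', inferInstance,
    fun p => tV (V p.1) (V' p.2), AddMonoidHom.mk' (fun p => AddMonoidHom.mk'
      (fun q => B p.1 q.1 + B' p.2 q.2) (fun q q' => by
        simp only [Prod.fst_add, Prod.snd_add, map_add]; ring)) (fun p p' => by
        refine AddMonoidHom.ext fun q => ?_
        simp only [Prod.fst_add, Prod.snd_add, map_add, AddMonoidHom.add_apply,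
            AddMonoidHom.mk'_apply]
        ring), fun n => (P n, P' n), max k k', (c, c'), fun n => f n + f' n, tt ξ ξ', tt η η',
        ?_, top_prod _ _ _ _ _ hc hc', hf.add hf', fun n => ?_⟩
  · rintro ⟨x, x'⟩ ⟨y, y'⟩ z
    have h1 : ∀ v, V x (V y v) = ee (B x y) • V (x + y) v := hV x y
    have h2 : ∀ v, V' x' (V' y' v) = ee (B' x' y') • V' (x' + y') v := hV' x' y'
    exact tV_mul _ _ _ _ _ _ h1 h2 z
  · show F n * F' n = ee (f n + f' n) * ⟪tt η η', tV (V (P n)) (V' (P' n)) (tt ξ ξ')⟫_ℂ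
    rw [hF, hF', ee_add, tV_tt, inner_tt]
    ring

variable {U : Type} [CStarAlgebra U] {G : Type} [Group G] {u : G → U} {α : U →⋆ₐ[ℂ] U} {σ : G →* G}

/-- the orbits at pure states -/
theorem IsPS.orbit [PartialOrder U] [StarOrderedRing U] (hu : TwC α u)
    (hα : ∀ g, ∃ z ∈ FC α, α (u g) = z * u (σ g)) {φ : U →ₚ[ℂ] ℂ} (hφ : Pure φ) (g : G)
    (m k r : ℕ) (hk : ((Dg σ m)^[k]) g = 1)
    (hd : ∀ n l : ℕ, CC u ((σ^[n]) (Dg σ m g)) ((σ^[l]) (Dg σ m g))) :
    IsPS fun n => φ ((α^[m * n + r]) (u g)) := by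
  obtain ⟨A, iA, V, B, a, R, Y, hV, hR, h1⟩ := orbit_form hu hα (irr_of_pure hφ) g m k r hk hd
  refine ⟨φ.GNS, inferInstance, inferInstance, inferInstance, A, iA, V, B, newt a (k + 2), k + 1,
    a (k + 1), R, om φ, ContinuousLinearMap.adjoint Y (om φ), hV, newt_top (k + 1) a, hR,
    fun n => ?_⟩
  show φ ((α^[m * n + r]) (u g)) = _
  rw [← gns_inner, h1, map_smul, inner_smul_right, ContinuousLinearMap.adjoint_inner_left]

/-- products of orbits at pure states -/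
theorem prod_orbit [PartialOrder U] [StarOrderedRing U] (hu : TwC α u)
    (hα : ∀ g, ∃ z ∈ FC α, α (u g) = z * u (σ g)) (L : List ((U →ₚ[ℂ] ℂ) × G))
    (hL : ∀ p ∈ L, Pure p.1 ∧ QG σ u p.2) :
    ∃ M : ℕ, 0 < M ∧ ∀ r, IsPS fun n => (L.map fun p => p.1 ((α^[M * n + r]) (u p.2))).prod := by
  induction L with
  | nil => exact ⟨1, one_pos, fun r => by simpa using IsPS.const 1⟩
  | cons p L ih =>
    obtain ⟨M, hM, h1⟩ := ih fun q hq => hL q (List.mem_cons_of_mem _ hq)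
    obtain ⟨hp, m, hm, ⟨k, hk⟩, hd⟩ := hL p List.mem_cons_self
    refine ⟨m * M, Nat.mul_pos hm hM, fun r => ?_⟩
    have h2 := (IsPS.orbit hu hα hp p.2 m k r hk hd).dil M 0
    have h3 := (h1 r).dil m 0
    have h4 := h2.mul h3
    convert h4 using 2 with n
    rw [List.map_cons, List.prod_cons]
    have e1 : m * M * n + r = m * (M * n + 0) + r := by ring
    have e2 : m * M * n + r = M * (m * n + 0) + r := by ring
    congr 1
    · rw [e1]
    · rw [e2]

/-- the products of the values at pure states are orthogonal to the Möbius function -/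
theorem mob_pure [PartialOrder U] [StarOrderedRing U] (hu : TwC α u)
    (hα : ∀ g, ∃ z ∈ FC α, α (u g) = z * u (σ g)) (L : List ((U →ₚ[ℂ] ℂ) × G))
    (hL : ∀ p ∈ L, Pure p.1 ∧ QG σ u p.2) (τ : ℝ) :
    Tendsto (vav fun n => mob n * (ee (n * τ) * (L.map fun p => p.1 ((α^[n]) (u p.2))).prod))
      atTop (𝓝 0) := by
  obtain ⟨M, hM, h1⟩ := prod_orbit hu hα L hL
  have hb : ∀ (φ : U →ₚ[ℂ] ℂ), Pure φ → ∀ (g : G) (n : ℕ), ‖φ ((α^[n]) (u g))‖ ≤ 4 * ‖u g‖ := by
    intro φ hφ g n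
    refine (norm_pos_le φ _).trans ?_
    rw [hφ.one, norm_one, one_mul]
    have := iter_norm α n (u g)
    gcongr
  have hb2 : ∀ (L : List ((U →ₚ[ℂ] ℂ) × G)), (∀ p ∈ L, Pure p.1 ∧ QG σ u p.2) →
      ∃ C : ℝ, 0 ≤ C ∧ ∀ n, ‖(L.map fun p => p.1 ((α^[n]) (u p.2))).prod‖ ≤ C := by
    intro L
    induction L with
    | nil => intro _; exact ⟨1, zero_le_one, fun n => by simp⟩
    | cons p L ih =>
      intro hL
      obtain ⟨C, hC0, hC⟩ := ih fun q hq => hL q (List.mem_cons_of_mem _ hq)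
      refine ⟨4 * ‖u p.2‖ * C, by positivity, fun n => ?_⟩
      rw [List.map_cons, List.prod_cons, norm_mul]
      have h2 := hb p.1 (hL p List.mem_cons_self).1 p.2 n
      have h3 := hC n
      gcongr
  obtain ⟨C, hC0, hC⟩ := hb2 L hL
  refine vav_of_residues hC0 (fun n => ?_) hM fun r hr => ?_
  · rw [norm_mul, norm_mul, norm_ee, one_mul]
    calc _ ≤ 1 * C := by
          gcongr
          · exact norm_mob_le _
          · exact hC n
      _ = C := one_mul C
  · have h4 : IsPF fun n : ℕ => ((M * n + r : ℕ) : ℝ) * τ := by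
      have := (((IsPF.const (M : ℝ)).mul IsPF.id).add (IsPF.const (r : ℝ))).mul (IsPF.const τ)
      convert this using 2 with n
      push_cast
      ring
    exact ((h1 r).phase h4).mob hM hr

end Pool.Agent.TH261.NP
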