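import Pool.Agent.TH261.NP.PS

/-! Möbius orthogonality of products of functionals, and of all continuous functions on compact
systems of functionals. -/

set_option autoImplicit false
set_option linter.unusedSectionVars false

open Finset Filter Topology

namespace Pool.Agent.TH261.NP

open Pool.Agent.Helper188.NCM Pool.Agent.TH261.AB Pool.Agent.W661.Nrm
open scoped InnerProductSpace ComplexOrder

variable {U : Type} [CStarAlgebra U] {G : Type} [Group G] {u : G → U} {α : U →⋆ₐ[ℂ] U} {σ : G →* G}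

/-- eigenvectors with eigenvalues of modulus one -/
def Eig {W : Type} [CStarAlgebra W] (γ : W →⋆ₐ[ℂ] W) (w : W) : Prop :=
  ∃ l : ℂ, ‖l‖ = 1 ∧ γ w = l • w

theorem Eig.mul {W : Type} [CStarAlgebra W] {γ : W →⋆ₐ[ℂ] W} {w v : W} (hw : Eig γ w)
    (hv : Eig γ v) : Eig γ (w * v) := by
  obtain ⟨l, hl, h1⟩ := hw
  obtain ⟨l', hl', h2⟩ := hv
  exact ⟨l * l', by rw [norm_mul, hl, hl', one_mul], by
    rw [map_mul, h1, h2, smul_mul_smul_comm]⟩

theorem Eig.map {W : Type} [CStarAlgebra W] {γ : W →⋆ₐ[ℂ] W} {ι : U →⋆ₐ[ℂ] W}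
    (hι : ∀ a, γ (ι a) = ι (α a)) {w : U} (hw : Eig α w) : Eig γ (ι w) := by
  obtain ⟨l, hl, h1⟩ := hw
  exact ⟨l, hl, by rw [hι, h1, map_smul]⟩

theorem Eig.one {W : Type} [CStarAlgebra W] (γ : W →⋆ₐ[ℂ] W) : Eig γ 1 :=
  ⟨1, norm_one, by rw [map_one, one_smul]⟩

/-- products with eigenvectors on both sides -/
def Prods {W : Type} [CStarAlgebra W] (γ : W →⋆ₐ[ℂ] W) (S : Set W) : Set W :=
  {x | ∃ y ∈ S, ∃ v w, Eig γ v ∧ Eig γ w ∧ x = v * y * w}

theorem GoodP.ext2 {β : U →⋆ₐ[ℂ] U} {x : U} (h : GoodP β x) {W : Type} [CStarAlgebra W]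
    (γ : W →⋆ₐ[ℂ] W) (ι : U →⋆ₐ[ℂ] W) (hι : ∀ a, γ (ι a) = ι (β a)) {v w : W} (hv : Eig γ v)
    (hw : Eig γ w) : Good γ (v * ι x * w) := by
  obtain ⟨l, hl, hw⟩ := hw
  obtain ⟨τ, rfl⟩ := exists_ee hl
  obtain ⟨l', hl', hv⟩ := hv
  obtain ⟨τ', rfl⟩ := exists_ee hl'
  intro K _ _ _ π ξ
  have hn : ∀ n : ℕ, (γ^[n]) (ι x) = ι ((β^[n]) x) := by
    intro n
    induction n with
    | zero => rfl
    | succ n ih => rw [Function.iterate_succ_apply', ih, hι, Function.iterate_succ_apply']
  have h1 := ((π v).continuous.tendsto 0).comp (h (τ' + τ) K (π.comp ι) (π w ξ))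
  rw [map_zero] at h1
  refine h1.congr fun N => ?_
  rw [Function.comp_apply, vav, vav, map_smul, map_sum]
  congr 1
  refine Finset.sum_congr rfl fun n _ => ?_
  rw [map_smul, map_smul, AB.iter_mul, AB.iter_mul, eig_iter hw, eig_iter hv, hn, map_mul, map_mul,
    map_smul, map_smul, mul_apply_eq_comp, mul_apply_eq_comp, smul_apply, smul_apply, map_smul,
    map_smul]
  simp only [smul_smul]
  rw [← ee_add, show (n : ℝ) * (τ' + τ) = n * τ' + n * τ by ring]
  rfl

/-- all elements of the generated algebra -/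
theorem good_all (hu : TwC α u)
    (hα : ∀ g, ∃ z ∈ FC α, α (u g) = z * u (σ g)) {S : Set G} (hσ : ∀ g ∈ S, QG σ u g)
    (hd : (Submodule.span ℂ (Prods α (u '' S))).topologicalClosure = ⊤)
    {W : Type} [CStarAlgebra W] (γ : W →⋆ₐ[ℂ] W) (ι : U →⋆ₐ[ℂ] W)
    (hι : ∀ a, γ (ι a) = ι (α a))
    (hgen : (Submodule.span ℂ (Prods γ (Set.range ι))).topologicalClosure = ⊤) :
    ∀ x, Good γ x := by
  have hS : ∀ x ∈ Prods γ (Set.range ι), Good γ x := by
    rintro x ⟨_, ⟨a, rfl⟩, v, w, hv, hw, rfl⟩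
    have hcont : Continuous fun a : U => v * ι a * w :=
      (continuous_const.mul (AddMonoidHomClass.continuous_of_bound ι 1 fun x => by
        rw [one_mul]; exact NonUnitalStarAlgHom.norm_apply_le ι x)).mul continuous_const
    have h1 : ∀ a ∈ Submodule.span ℂ (Prods α (u '' S)), Good γ (v * ι a * w) := by
      intro a ha
      induction ha using Submodule.span_induction with
      | mem x hx =>
        obtain ⟨_, ⟨g, hg, rfl⟩, v', w', hv', hw', rfl⟩ := hx
        have h2 := GoodP.ext2 (GoodP.gen hu hα (hσ g hg)) γ ι hι (hv.mul (hv'.map hι))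
          ((hw'.map hι).mul hw)
        have e : v * ι (v' * u g * w') * w = v * ι v' * ι (u g) * (ι w' * w) := by
          rw [map_mul, map_mul]; simp only [mul_assoc]
        rw [e]
        exact h2
      | zero => rw [map_zero, mul_zero, zero_mul]; exact Good.zero γ
      | add x y _ _ hx hy => rw [map_add, mul_add, add_mul]; exact hx.add hy
      | smul c x _ hx => rw [map_smul, mul_smul_comm, smul_mul_assoc]; exact hx.smul c
    have h2 : a ∈ closure (Submodule.span ℂ (Prods α (u '' S)) : Set U) := by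
      have : a ∈ (Submodule.span ℂ (Prods α (u '' S))).topologicalClosure := by
        rw [hd]; trivial
      exact this
    refine Good.closed (S := (fun a : U => v * ι a * w) ''
      (Submodule.span ℂ (Prods α (u '' S)) : Set U))
      ?_ _ (image_closure_subset_closure_image hcont ⟨a, h2, rfl⟩)
    rintro _ ⟨a, ha, rfl⟩
    exact h1 a ha
  intro x
  refine Good.of_span hS x ?_
  rw [hgen]; trivial

/-- one step: from pure states to all bounded functionals, with bounded weights -/
theorem one_step [PartialOrder U] [StarOrderedRing U] {w : ℕ → ℂ} {C : ℝ} (hw : ∀ n, ‖w n‖ ≤ C)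
    (x : U) (h : ∀ φ : U →ₚ[ℂ] ℂ, Pure φ →
      Tendsto (vav fun n => w n * φ ((α^[n]) x)) atTop (𝓝 0)) (ρ : U →L[ℂ] ℂ) :
    Tendsto (vav fun n => w n * ρ ((α^[n]) x)) atTop (𝓝 0) := by
  have hC : 0 ≤ C := (norm_nonneg _).trans (hw 0)
  set X : ℕ → U := vav fun n => w n • (α^[n]) x with hX
  have hXn : ∀ N, ‖X N‖ ≤ C * ‖x‖ := by
    intro N
    refine vav_le (by positivity) (fun n => ?_) N
    rw [norm_smul]
    have h1 := hw n
    have h2 := iter_norm α n x
    gcongr
  have hlin : ∀ (φ : U →ₗ[ℂ] ℂ) N, φ (X N) = vav (fun n => w n * φ ((α^[n]) x)) N := by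
    intro φ N
    rw [hX, vav, vav, map_smul, map_sum]
    congr 1
    exact Finset.sum_congr rfl fun n _ => by rw [map_smul, smul_eq_mul]
  have h1 : ∀ φ : U →ₚ[ℂ] ℂ, Tendsto (fun N => φ (X N)) atTop (𝓝 0) :=
    rain hXn fun φ hφ => (h φ hφ).congr fun N => (hlin (φ : U →ₗ[ℂ] ℂ) N).symm
  obtain ⟨K, _, _, _, π, hπ⟩ := H759R2.Kad.prove7_rep H759R2.Kad.prove7_jord
    (H759R2.Kad.prove7_univ H759R2.Kad.prove7_gns) U
  obtain ⟨ζ, ω, hρ, -⟩ := hπ ρ.toLinearMap ‖ρ‖ (norm_nonneg _) fun a => ρ.le_opNorm a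
  have hρ' : ∀ a, ρ a = ⟪ζ, π a ω⟫_ℂ := hρ
  have hv : ∀ η : K, Tendsto (fun N => ⟪η, π (X N) η⟫_ℂ) atTop (𝓝 0) := fun η => h1 (vec π η)
  have h2 : Tendsto (fun N => ρ (X N)) atTop (𝓝 0) := by
    have h3 := ((((hv (ω + ζ)).sub (hv (ω - ζ))).add
      ((hv (ω + Complex.I • ζ)).const_mul Complex.I)).sub
      ((hv (ω - Complex.I • ζ)).const_mul Complex.I)).div_const 4
    simp only [sub_zero, mul_zero, add_zero, zero_div] at h3
    refine h3.congr fun N => ?_
    rw [hρ']
    simp only [map_add, map_sub, map_smul, inner_add_left, inner_add_right, inner_sub_left,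
      inner_sub_right, inner_smul_left, inner_smul_right, Complex.conj_I]
    linear_combination ((⟪ω, π (X N) ζ⟫_ℂ - ⟪ζ, π (X N) ω⟫_ℂ) / 2) * Complex.I_sq
  exact h2.congr fun N => hlin ρ.toLinearMap N

theorem vav_add' {a b : ℕ → ℂ} (ha : Tendsto (vav a) atTop (𝓝 0)) (hb : Tendsto (vav b) atTop (𝓝 0)) :
    Tendsto (vav fun n => a n + b n) atTop (𝓝 0) := by
  have := ha.add hb
  rw [add_zero] at this
  refine this.congr fun N => ?_
  rw [vav, vav, vav, ← smul_add, ← Finset.sum_add_distrib]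

theorem vav_mul' {a : ℕ → ℂ} (c : ℂ) (ha : Tendsto (vav a) atTop (𝓝 0)) :
    Tendsto (vav fun n => c * a n) atTop (𝓝 0) := by
  have := ha.const_mul c
  rw [mul_zero] at this
  refine this.congr fun N => ?_
  rw [vav, vav, ← Finset.mul_sum, smul_eq_mul, smul_eq_mul]
  ring

/-- approximation -/
theorem vav_approx {a : ℕ → ℂ} (h : ∀ ε : ℝ, 0 < ε → ∃ b : ℕ → ℂ, (∀ n, ‖a n - b n‖ ≤ ε) ∧
    Tendsto (vav b) atTop (𝓝 0)) : Tendsto (vav a) atTop (𝓝 0) := by
  rw [Metric.tendsto_atTop]
  intro ε hε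
  obtain ⟨b, hb, hb0⟩ := h (ε / 2) (by positivity)
  obtain ⟨N0, hN0⟩ := Metric.tendsto_atTop.1 hb0 (ε / 2) (by positivity)
  refine ⟨N0, fun N hN => ?_⟩
  have h2 := hN0 N hN
  rw [dist_zero_right] at h2 ⊢
  have e : vav a N = vav (fun n => a n - b n) N + vav b N := by
    rw [vav, vav, vav, ← smul_add, ← Finset.sum_add_distrib]
    congr 1
    exact Finset.sum_congr rfl fun n _ => by ring
  rw [e]
  have h3 := vav_le (by positivity) hb N
  have h4 := norm_add_le (vav (fun n => a n - b n) N) (vav b N)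
  linarith

/-- **Products of functionals.** -/
theorem multi (hu : TwC α u)
    (hα : ∀ g, ∃ z ∈ FC α, α (u g) = z * u (σ g)) {S : Set G} (hσ : ∀ g ∈ S, QG σ u g)
    (hd : (Submodule.span ℂ (Prods α (u '' S))).topologicalClosure = ⊤)
    {W : Type} [CStarAlgebra W] (γ : W →⋆ₐ[ℂ] W) (ι : U →⋆ₐ[ℂ] W)
    (hι : ∀ a, γ (ι a) = ι (α a))
    (hgen : (Submodule.span ℂ (Prods γ (Set.range ι))).topologicalClosure = ⊤)
    (L : List ((W →L[ℂ] ℂ) × W)) :
    Tendsto (vav fun n => mob n * (L.map fun p => p.1 ((γ^[n]) p.2)).prod) atTop (𝓝 0) := by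
  let _ : PartialOrder U := CStarAlgebra.spectralOrder U
  have _ : StarOrderedRing U := CStarAlgebra.spectralOrderedRing U
  have hb1 : ∀ (ρ : W →L[ℂ] ℂ) (a : W) (n : ℕ), ‖ρ ((γ^[n]) a)‖ ≤ ‖ρ‖ * ‖a‖ := by
    intro ρ a n
    refine (ρ.le_opNorm _).trans ?_
    have := iter_norm γ n a
    gcongr
  have hb1' : ∀ L : List ((W →L[ℂ] ℂ) × W), ∃ C : ℝ, 0 ≤ C ∧
      ∀ n, ‖(L.map fun p => p.1 ((γ^[n]) p.2)).prod‖ ≤ C := by
    intro L
    induction L with
    | nil => exact ⟨1, zero_le_one, fun n => by simp⟩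
    | cons p L ih =>
      obtain ⟨C, hC0, hC⟩ := ih
      refine ⟨‖p.1‖ * ‖p.2‖ * C, by positivity, fun n => ?_⟩
      rw [List.map_cons, List.prod_cons, norm_mul]
      have h2 := hb1 p.1 p.2 n
      have h3 := hC n
      gcongr
  have hb2 : ∀ L : List ((U →ₚ[ℂ] ℂ) × G), (∀ p ∈ L, Pure p.1) →
      ∃ C : ℝ, 0 ≤ C ∧ ∀ n, ‖(L.map fun p => p.1 ((α^[n]) (u p.2))).prod‖ ≤ C := by
    intro L
    induction L with
    | nil => intro _; exact ⟨1, zero_le_one, fun n => by simp⟩
    | cons p L ih =>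
      intro hL
      obtain ⟨C, hC0, hC⟩ := ih fun q hq => hL q (List.mem_cons_of_mem _ hq)
      refine ⟨4 * ‖u p.2‖ * C, by positivity, fun n => ?_⟩
      rw [List.map_cons, List.prod_cons, norm_mul]
      have h2 : ‖p.1 ((α^[n]) (u p.2))‖ ≤ 4 * ‖u p.2‖ := by
        refine (norm_pos_le p.1 _).trans ?_
        rw [(hL p List.mem_cons_self).one, norm_one, one_mul]
        have := iter_norm α n (u p.2)
        gcongr
      have h3 := hC n
      gcongr
  have key : ∀ (L : List ((W →L[ℂ] ℂ) × W)) (L2 : List ((U →ₚ[ℂ] ℂ) × G)),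
      (∀ p ∈ L2, Pure p.1 ∧ p.2 ∈ S) → ∀ τ : ℝ,
      Tendsto (vav fun n => mob n * (ee (n * τ) * ((L.map fun p => p.1 ((γ^[n]) p.2)).prod *
        (L2.map fun p => p.1 ((α^[n]) (u p.2))).prod))) atTop (𝓝 0) := by
    intro L
    induction L with
    | nil =>
      intro L2 hL2 τ
      refine (mob_pure hu hα L2 (fun p hp => ⟨(hL2 p hp).1, hσ p.2 (hL2 p hp).2⟩) τ).congr fun N => ?_
      simp
    | cons p L ih =>
      intro L2 hL2 τ
      obtain ⟨ρ, a0⟩ := p
      obtain ⟨C, hC0, hC⟩ := hb1' L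
      obtain ⟨C2, hC20, hC2⟩ := hb2 L2 fun p hp => (hL2 p hp).1
      -- the statement for one element
      set F : ℕ → ℂ := fun n => (L.map fun p => p.1 ((γ^[n]) p.2)).prod *
        (L2.map fun p => p.1 ((α^[n]) (u p.2))).prod with hF
      have hFb : ∀ n, ‖F n‖ ≤ C * C2 := by
        intro n
        rw [hF]
        simp only
        rw [norm_mul]
        have h1 := hC n
        have h2 := hC2 n
        gcongr
      have hwb : ∀ (τ : ℝ) n, ‖mob n * (ee (n * τ) * F n)‖ ≤ C * C2 := by
        intro τ n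
        rw [norm_mul, norm_mul, norm_ee, one_mul]
        calc _ ≤ 1 * (C * C2) := by
              gcongr
              · exact norm_mob_le _
              · exact hFb n
          _ = _ := one_mul _
      -- generators of `U`, all functionals on `U`
      have h1 : ∀ (τ : ℝ) (g : G), g ∈ S → ∀ (ψ : U →L[ℂ] ℂ), Tendsto (vav fun n =>
          (mob n * (ee (n * τ) * F n)) * ψ ((α^[n]) (u g))) atTop (𝓝 0) := by
        intro τ g hg ψ
        refine one_step (hwb τ) (u g) (fun φ hφ => ?_) ψ
        refine (ih ((φ, g) :: L2) (fun q hq => ?_) τ).congr fun N => ?_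
        · rcases List.mem_cons.1 hq with rfl | hq
          · exact ⟨hφ, hg⟩
          · exact hL2 q hq
        · rw [vav, vav]
          congr 1
          refine Finset.sum_congr rfl fun n _ => ?_
          rw [List.map_cons, List.prod_cons, hF]
          simp only
          ring
      -- closure
      have hcl : ∀ (D : Set W) (τ : ℝ), (∀ a ∈ D, Tendsto (vav fun n =>
          (mob n * (ee (n * τ) * F n)) * ρ ((γ^[n]) a)) atTop (𝓝 0)) →
          ∀ a ∈ closure D, Tendsto (vav fun n =>
          (mob n * (ee (n * τ) * F n)) * ρ ((γ^[n]) a)) atTop (𝓝 0) := by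
        intro D τ hD a ha
        refine vav_approx fun ε hε => ?_
        obtain ⟨b, hb, hab⟩ := Metric.mem_closure_iff.1 ha (ε / (C * C2 * ‖ρ‖ + 1)) (by positivity)
        refine ⟨_, fun n => ?_, hD b hb⟩
        rw [← mul_sub, ← map_sub, ← AB.iter_sub, norm_mul]
        have h2 := hwb τ n
        have h3 := hb1 ρ (a - b) n
        rw [dist_eq_norm] at hab
        calc _ ≤ (C * C2) * (‖ρ‖ * ‖a - b‖) := by gcongr
          _ ≤ (C * C2) * (‖ρ‖ * (ε / (C * C2 * ‖ρ‖ + 1))) := by gcongr
          _ = (C * C2 * ‖ρ‖) / (C * C2 * ‖ρ‖ + 1) * ε := by ring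
          _ ≤ 1 * ε := by
              gcongr
              rw [div_le_one (by positivity)]
              linarith
          _ = ε := one_mul _
      have hspan : ∀ (D : Set W) (τ : ℝ), (∀ a ∈ D, Tendsto (vav fun n =>
          (mob n * (ee (n * τ) * F n)) * ρ ((γ^[n]) a)) atTop (𝓝 0)) →
          ∀ a ∈ Submodule.span ℂ D, Tendsto (vav fun n =>
          (mob n * (ee (n * τ) * F n)) * ρ ((γ^[n]) a)) atTop (𝓝 0) := by
        intro D τ hD a ha
        induction ha using Submodule.span_induction with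
        | mem x hx => exact hD x hx
        | zero =>
          have h0 : ∀ n, (γ^[n]) (0 : W) = 0 := fun n => by
            have := iter_smul γ n 0 0
            rwa [zero_smul, zero_smul] at this
          have : (vav fun n => (mob n * (ee (n * τ) * F n)) * ρ ((γ^[n]) (0 : W))) = fun _ => 0 := by
            funext N
            simp [vav, h0]
          rw [this]
          exact tendsto_const_nhds
        | add x y _ _ hx hy =>
          refine (vav_add' hx hy).congr fun N => ?_
          rw [vav, vav]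
          congr 1
          exact Finset.sum_congr rfl fun n _ => by rw [AB.iter_add, map_add, mul_add]
        | smul c x _ hx =>
          refine (vav_mul' c hx).congr fun N => ?_
          rw [vav, vav]
          congr 1
          exact Finset.sum_congr rfl fun n _ => by rw [iter_smul, map_smul, smul_eq_mul]; ring
      -- products with eigenvectors
      have h2 : ∀ a ∈ Prods γ (Set.range ι), Tendsto (vav fun n =>
          (mob n * (ee (n * τ) * F n)) * ρ ((γ^[n]) a)) atTop (𝓝 0) := by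
        rintro x ⟨_, ⟨a, rfl⟩, v, w, hv, hw, rfl⟩
        have hcont : Continuous fun a : U => v * ι a * w :=
          (continuous_const.mul (AddMonoidHomClass.continuous_of_bound ι 1 fun x => by
            rw [one_mul]; exact NonUnitalStarAlgHom.norm_apply_le ι x)).mul continuous_const
        have h3 : a ∈ closure (Submodule.span ℂ (Prods α (u '' S)) : Set U) := by
          have : a ∈ (Submodule.span ℂ (Prods α (u '' S))).topologicalClosure := by
            rw [hd]; trivial
          exact this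
        refine hcl ((fun a : U => v * ι a * w) ''
          (Submodule.span ℂ (Prods α (u '' S)) : Set U)) τ ?_ _
          (image_closure_subset_closure_image hcont ⟨a, h3, rfl⟩)
        rintro _ ⟨a, ha, rfl⟩
        have h4 : v * ι a * w ∈ Submodule.span ℂ ((fun a : U => v * ι a * w) ''
            (Prods α (u '' S))) := by
          have hl : (fun a : U => v * ι a * w) = ((LinearMap.mulRight ℂ w).comp
            ((LinearMap.mulLeft ℂ v).comp (ι : U →ₐ[ℂ] W).toLinearMap) : U →ₗ[ℂ] W) := rfl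
          rw [hl, Submodule.span_image]
          exact ⟨a, ha, rfl⟩
        refine hspan _ τ ?_ _ h4
        rintro _ ⟨_, ⟨_, ⟨g, hg, rfl⟩, v', w', hv', hw', rfl⟩, rfl⟩
        have e : v * ι (v' * u g * w') * w = v * ι v' * ι (u g) * (ι w' * w) := by
          rw [map_mul, map_mul]; simp only [mul_assoc]
        simp only [e]
        obtain ⟨l, hl, hV⟩ := hv.mul (hv'.map hι)
        obtain ⟨l', hl', hW⟩ := (hw'.map hι).mul hw
        obtain ⟨θ, rfl⟩ := exists_ee hl
        obtain ⟨θ', rfl⟩ := exists_ee hl'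
        set V := v * ι v'
        set Z := ι w' * w
        -- the functional on `U`
        have hψ : ∃ ψ : U →L[ℂ] ℂ, ∀ b, ψ b = ρ (V * ι b * Z) := by
          refine ⟨LinearMap.mkContinuous ((ρ : W →ₗ[ℂ] ℂ).comp ((LinearMap.mulRight ℂ Z).comp
            ((LinearMap.mulLeft ℂ V).comp (ι : U →ₐ[ℂ] W).toLinearMap))) (‖ρ‖ * (‖V‖ * ‖Z‖))
            fun b => ?_, fun b => rfl⟩
          show ‖ρ (V * ι b * Z)‖ ≤ _
          refine (ρ.le_opNorm _).trans ?_
          have h5 := norm_mul_le (V * ι b) Z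
          have h6 := norm_mul_le V (ι b)
          have h7 : ‖ι b‖ ≤ ‖b‖ := NonUnitalStarAlgHom.norm_apply_le ι b
          calc _ ≤ ‖ρ‖ * (‖V‖ * ‖b‖ * ‖Z‖) := by
                gcongr
                refine h5.trans ?_
                gcongr
                exact h6.trans (by gcongr)
            _ = _ := by ring
        obtain ⟨ψ, hψ⟩ := hψ
        have hn : ∀ n : ℕ, (γ^[n]) (ι (u g)) = ι ((α^[n]) (u g)) := by
          intro n
          generalize u g = y
          induction n with
          | zero => rfl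
          | succ n ih => rw [Function.iterate_succ_apply', ih, hι, Function.iterate_succ_apply']
        refine (h1 (τ + (θ + θ')) g hg ψ).congr fun N => ?_
        rw [vav, vav]
        congr 1
        refine Finset.sum_congr rfl fun n _ => ?_
        rw [AB.iter_mul, AB.iter_mul, eig_iter hV, eig_iter hW, hn, hψ, smul_mul_assoc,
          mul_smul_comm, smul_mul_assoc, smul_smul, map_smul, smul_eq_mul,
          show (n : ℝ) * (τ + (θ + θ')) = n * τ + (n * θ' + n * θ) by ring, ee_add, ee_add]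
        ring
      have h5 : a0 ∈ closure (Submodule.span ℂ (Prods γ (Set.range ι)) : Set W) := by
        have : a0 ∈ (Submodule.span ℂ (Prods γ (Set.range ι))).topologicalClosure := by
          rw [hgen]; trivial
        exact this
      refine (hcl _ τ (hspan _ τ h2) a0 h5).congr fun N => ?_
      rw [vav, vav]
      congr 1
      refine Finset.sum_congr rfl fun n _ => ?_
      rw [List.map_cons, List.prod_cons, hF]
      simp only
      ring
  refine (key L [] (fun p hp => absurd hp List.not_mem_nil) 0).congr fun N => ?_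
  rw [vav, vav]
  congr 1
  refine Finset.sum_congr rfl fun n _ => ?_
  rw [mul_zero, ee_zero, one_mul, List.map_nil, List.prod_nil, mul_one]

end Pool.Agent.TH261.NP
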